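import Mathlib

/-!
Project PX (MP_b8862a_ag), block PX-11: counting, rank 2 and rank at least 4.
-/

set_option linter.unusedSectionVars false

open Finset

namespace PX

theorem cnt4 (r : ℕ) : ∃ C : ℝ, ∀ (Y : ℕ) (B : Finset (Fin r → ℕ)), (∀ b ∈ B, (∀ i, 1 ≤ b i) ∧
    (∏ i, b i) ^ 25 ≤ Y ^ 12) → (B.card : ℝ) ≤ C * (Y : ℝ) ^ (1 / 2 : ℝ) := by
  set g : ℕ → ℝ := fun k => ((k : ℝ) ^ (25 / 24 : ℝ))⁻¹ with hg
  have hsum : Summable g := by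
    have := (Real.summable_nat_rpow_inv (p := (25 / 24 : ℝ))).2 (by norm_num)
    exact this
  have hg0 : ∀ k, 0 ≤ g k := fun k => by rw [hg]; positivity
  refine ⟨(∑' k, g k) ^ r, fun Y B hB => ?_⟩
  have hY0 : (0 : ℝ) ≤ (Y : ℝ) := by positivity
  -- every element contributes at least one
  have h1 : ∀ b ∈ B, (1 : ℝ) ≤ (Y : ℝ) ^ (1 / 2 : ℝ) * ∏ i, g (b i) := by
    intro b hb
    obtain ⟨hb1, hb2⟩ := hB b hb
    have hP : (1 : ℝ) ≤ ((∏ i, b i : ℕ) : ℝ) := by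
      exact_mod_cast Nat.one_le_iff_ne_zero.2 (Finset.prod_ne_zero_iff.2 fun i _ => by have := hb1 i; omega)
    have hP0 : (0 : ℝ) < ((∏ i, b i : ℕ) : ℝ) := by linarith
    have e1 : ∏ i, g (b i) = (((∏ i, b i : ℕ) : ℝ) ^ (25 / 24 : ℝ))⁻¹ := by
      rw [hg]
      simp only
      rw [Finset.prod_inv_distrib]
      congr 1
      rw [Nat.cast_prod, Real.finsetProd_rpow]
      intro i _
      positivity
    have e2 : ((∏ i, b i : ℕ) : ℝ) ^ (25 / 24 : ℝ) ≤ (Y : ℝ) ^ (1 / 2 : ℝ) := by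
      have h3 : (((∏ i, b i : ℕ) : ℝ)) ^ (25 : ℕ) ≤ (Y : ℝ) ^ (12 : ℕ) := by exact_mod_cast hb2
      have h4 : ((((∏ i, b i : ℕ) : ℝ)) ^ (25 : ℕ)) ^ (1 / 24 : ℝ) ≤ ((Y : ℝ) ^ (12 : ℕ)) ^ (1 / 24 : ℝ) :=
        Real.rpow_le_rpow (by positivity) h3 (by norm_num)
      rw [← Real.rpow_natCast, ← Real.rpow_mul hP0.le, ← Real.rpow_natCast (Y : ℝ), ← Real.rpow_mul hY0] at h4
      norm_num at h4 ⊢
      exact h4
    rw [e1, ← div_eq_mul_inv, one_le_div (by positivity)]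
    exact e2
  -- a box
  obtain ⟨N, hN⟩ : ∃ N : ℕ, ∀ b ∈ B, ∀ i, b i < N := by
    refine ⟨(∑ b ∈ B, ∑ i, b i) + 1, fun b hb i => ?_⟩
    have h2 : b i ≤ ∑ i, b i := Finset.single_le_sum (f := fun i => b i) (fun _ _ => Nat.zero_le _) (mem_univ i)
    have h3 : ∑ i, b i ≤ ∑ b ∈ B, ∑ i, b i := Finset.single_le_sum (f := fun b => ∑ i, b i) (fun _ _ => Nat.zero_le _) hb
    omega
  have hsub : B ⊆ Fintype.piFinset (fun _ : Fin r => range N) := by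
    intro b hb
    rw [Fintype.mem_piFinset]
    intro i
    exact mem_range.2 (hN b hb i)
  calc (B.card : ℝ) = ∑ _b ∈ B, (1 : ℝ) := by simp
    _ ≤ ∑ b ∈ B, (Y : ℝ) ^ (1 / 2 : ℝ) * ∏ i, g (b i) := sum_le_sum h1
    _ ≤ ∑ b ∈ Fintype.piFinset (fun _ : Fin r => range N), (Y : ℝ) ^ (1 / 2 : ℝ) * ∏ i, g (b i) := by
        refine sum_le_sum_of_subset_of_nonneg hsub fun b _ _ => ?_
        have : 0 ≤ ∏ i, g (b i) := prod_nonneg fun i _ => hg0 _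
        positivity
    _ = (Y : ℝ) ^ (1 / 2 : ℝ) * (∑ k ∈ range N, g k) ^ r := by
        rw [← mul_sum]
        congr 1
        rw [Finset.sum_prod_piFinset]
        simp
    _ ≤ (Y : ℝ) ^ (1 / 2 : ℝ) * (∑' k, g k) ^ r := by
        have h5 : ∑ k ∈ range N, g k ≤ ∑' k, g k := hsum.sum_le_tsum _ fun k _ => hg0 k
        have h6 : 0 ≤ ∑ k ∈ range N, g k := sum_nonneg fun k _ => hg0 k
        gcongr
    _ = (∑' k, g k) ^ r * (Y : ℝ) ^ (1 / 2 : ℝ) := mul_comm _ _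

/-- the tail of the sum of the inverse cubes -/
theorem cube_tail (u K : ℕ) (hu : 1 ≤ u) : ∑ T ∈ Ico u K, 1 / ((T : ℝ) ^ 3) ≤ 2 / (u : ℝ) ^ 2 := by
  have key : ∀ K : ℕ, u ≤ K → ∑ T ∈ Ico u K, 1 / ((T : ℝ) ^ 3) ≤ 2 / (u : ℝ) ^ 2 - 2 / (K : ℝ) ^ 2 := by
    intro K hK
    induction K, hK using Nat.le_induction with
    | base => simp
    | succ K hK ih =>
      rw [sum_Ico_succ_top hK]
      have hK0 : (1 : ℝ) ≤ K := by exact_mod_cast le_trans hu hK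
      have : 1 / ((K : ℝ) ^ 3) ≤ 2 / (K : ℝ) ^ 2 - 2 / ((K + 1 : ℕ) : ℝ) ^ 2 := by
        push_cast
        rw [div_sub_div _ _ (by positivity) (by positivity), div_le_div_iff₀ (by positivity) (by positivity)]
        nlinarith [sq_nonneg ((K : ℝ) - 1), mul_nonneg (sub_nonneg.2 hK0) (sub_nonneg.2 hK0), pow_pos (by linarith : (0 : ℝ) < K) 3,
          pow_pos (by linarith : (0 : ℝ) < K) 2, pow_pos (by linarith : (0 : ℝ) < K) 4]
      linarith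
  rcases le_or_gt u K with h | h
  · have := key K h
    have h2 : 0 ≤ 2 / (K : ℝ) ^ 2 := by positivity
    linarith
  · rw [Ico_eq_empty_of_le h.le, sum_empty]
    positivity

/-- the pairs `(T, y)` with `T > t` and `T^3 y ≤ Y` -/
theorem pair_tail (Y t : ℕ) (ht : Y < (t + 1) ^ 4) (A : Finset (ℕ × ℕ))
    (hA : ∀ x ∈ A, t < x.1 ∧ 1 ≤ x.2 ∧ x.1 ^ 3 * x.2 ≤ Y) : (A.card : ℝ) ≤ 2 * (Y : ℝ) ^ (1 / 2 : ℝ) := by
  have h1 : A.card ≤ ((Ico (t + 1) (Y + 1)).sigma (fun T => Icc 1 (Y / T ^ 3))).card := by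
    refine card_le_card_of_injOn (fun x => (⟨x.1, x.2⟩ : Σ _ : ℕ, ℕ)) ?_ ?_
    · intro x hx
      obtain ⟨h1, h2, h3⟩ := hA x hx
      have h4 : 0 < x.1 := by omega
      have h5 : x.1 ≤ Y := by
        calc x.1 = x.1 * 1 * 1 := by ring
          _ ≤ x.1 * x.1 ^ 2 * x.2 := by
              gcongr
              exact Nat.one_le_pow _ _ h4
          _ = x.1 ^ 3 * x.2 := by ring
          _ ≤ Y := h3
      rw [Finset.mem_coe, Finset.mem_sigma]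
      refine ⟨mem_Ico.2 ⟨by simp only; omega, by simp only; omega⟩, mem_Icc.2 ⟨h2, ?_⟩⟩
      simp only
      rw [Nat.le_div_iff_mul_le (by positivity)]
      rw [mul_comm]
      exact h3
    · intro x _ y _ hxy
      simp only [Sigma.mk.injEq, heq_eq_eq] at hxy
      exact Prod.ext hxy.1 hxy.2
  rw [card_sigma] at h1
  simp only [Nat.card_Icc, Nat.add_sub_cancel] at h1
  have h2 : (A.card : ℝ) ≤ ∑ T ∈ Ico (t + 1) (Y + 1), (Y : ℝ) * (1 / ((T : ℝ) ^ 3)) := by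
    calc (A.card : ℝ) ≤ ((∑ T ∈ Ico (t + 1) (Y + 1), Y / T ^ 3 : ℕ) : ℝ) := by exact_mod_cast h1
      _ = ∑ T ∈ Ico (t + 1) (Y + 1), ((Y / T ^ 3 : ℕ) : ℝ) := by push_cast; rfl
      _ ≤ _ := by
          refine sum_le_sum fun T _ => ?_
          refine (Nat.cast_div_le (α := ℝ)).trans (le_of_eq ?_)
          push_cast
          ring
  rw [← mul_sum] at h2
  have h3 := cube_tail (t + 1) (Y + 1) (by omega)
  have h4 : (Y : ℝ) ^ (1 / 2 : ℝ) ≤ ((t + 1 : ℕ) : ℝ) ^ 2 := by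
    rw [← Real.sqrt_eq_rpow]
    rw [show (((t + 1 : ℕ) : ℝ) ^ 2) = Real.sqrt ((((t + 1 : ℕ) : ℝ) ^ 2) ^ 2) by rw [Real.sqrt_sq (by positivity)]]
    apply Real.sqrt_le_sqrt
    have : (Y : ℝ) ≤ (((t + 1) ^ 4 : ℕ) : ℝ) := by exact_mod_cast ht.le
    calc (Y : ℝ) ≤ (((t + 1) ^ 4 : ℕ) : ℝ) := this
      _ = _ := by push_cast; ring
  have h5 : (0 : ℝ) ≤ (Y : ℝ) := by positivity
  have h6 : (Y : ℝ) = (Y : ℝ) ^ (1 / 2 : ℝ) * (Y : ℝ) ^ (1 / 2 : ℝ) := by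
    rw [← Real.sqrt_eq_rpow, Real.mul_self_sqrt h5]
  calc (A.card : ℝ) ≤ (Y : ℝ) * ∑ T ∈ Ico (t + 1) (Y + 1), (1 / ((T : ℝ) ^ 3)) := h2
    _ ≤ (Y : ℝ) * (2 / ((t + 1 : ℕ) : ℝ) ^ 2) := by gcongr
    _ = 2 * ((Y : ℝ) / ((t + 1 : ℕ) : ℝ) ^ 2) := by ring
    _ ≤ 2 * (Y : ℝ) ^ (1 / 2 : ℝ) := by
        gcongr
        rw [div_le_iff₀ (by positivity)]
        calc (Y : ℝ) = (Y : ℝ) ^ (1 / 2 : ℝ) * (Y : ℝ) ^ (1 / 2 : ℝ) := h6
          _ ≤ _ := by gcongr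

theorem cnt2 : ∃ C : ℝ, ∀ (Y : ℕ) (B : Finset (Fin 2 → ℕ)), (∀ b ∈ B, (∀ i, 1 ≤ b i) ∧
    ∃ q, (∀ i, b i ≤ b q) ∧ b q ^ 2 * ∏ i, b i ≤ Y) → (B.card : ℝ) ≤ C * (Y : ℝ) ^ (1 / 2 : ℝ) := by
  classical
  refine ⟨5, fun Y B hB => ?_⟩
  set t := Nat.sqrt (Nat.sqrt Y) with ht
  have ht1 : t ^ 4 ≤ Y := by
    have h1 : t * t ≤ Nat.sqrt Y := Nat.sqrt_le _
    have h2 : Nat.sqrt Y * Nat.sqrt Y ≤ Y := Nat.sqrt_le _
    calc t ^ 4 = (t * t) * (t * t) := by ring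
      _ ≤ Nat.sqrt Y * Nat.sqrt Y := Nat.mul_le_mul h1 h1
      _ ≤ Y := h2
  have ht2 : Y < (t + 1) ^ 4 := by
    have h1 : Nat.sqrt Y < (t + 1) * (t + 1) := Nat.lt_succ_sqrt _
    have h2 : Y < (Nat.sqrt Y + 1) * (Nat.sqrt Y + 1) := Nat.lt_succ_sqrt _
    calc Y < (Nat.sqrt Y + 1) * (Nat.sqrt Y + 1) := h2
      _ ≤ ((t + 1) * (t + 1)) * ((t + 1) * (t + 1)) := Nat.mul_le_mul h1 h1
      _ = (t + 1) ^ 4 := by ring
  set B0 := B.filter (fun b => b 0 ≤ t ∧ b 1 ≤ t) with hB0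
  set B1 := B.filter (fun b => t < b 0 ∧ b 0 ^ 3 * b 1 ≤ Y) with hB1
  set B2 := B.filter (fun b => t < b 1 ∧ b 1 ^ 3 * b 0 ≤ Y) with hB2
  have hcov : B ⊆ B0 ∪ (B1 ∪ B2) := by
    intro b hb
    obtain ⟨hb1, q, hq, hY⟩ := hB b hb
    rw [mem_union, mem_union]
    rw [Fin.prod_univ_two] at hY
    by_cases h0 : b 0 ≤ t ∧ b 1 ≤ t
    · left
      exact mem_filter.2 ⟨hb, h0⟩
    right
    fin_cases q
    · left
      simp only [Fin.zero_eta] at hq hY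
      refine mem_filter.2 ⟨hb, ?_, ?_⟩
      · have := hq 1
        by_contra h2
        exact h0 ⟨by omega, by omega⟩
      · calc b 0 ^ 3 * b 1 = b 0 ^ 2 * (b 0 * b 1) := by ring
          _ ≤ Y := hY
    · right
      simp only [Fin.mk_one] at hq hY
      refine mem_filter.2 ⟨hb, ?_, ?_⟩
      · have := hq 0
        by_contra h2
        exact h0 ⟨by omega, by omega⟩
      · calc b 1 ^ 3 * b 0 = b 1 ^ 2 * (b 0 * b 1) := by ring
          _ ≤ Y := hY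
  have hc0 : (B0.card : ℝ) ≤ (Y : ℝ) ^ (1 / 2 : ℝ) := by
    have h1 : B0.card ≤ (Icc 1 t ×ˢ Icc 1 t).card := by
      refine card_le_card_of_injOn (fun b => (b 0, b 1)) ?_ ?_
      · intro b hb
        have hb' := (mem_filter.1 (Finset.mem_coe.1 hb))
        obtain ⟨hb1, -⟩ := hB b hb'.1
        rw [Finset.mem_coe, mem_product]
        exact ⟨mem_Icc.2 ⟨hb1 0, hb'.2.1⟩, mem_Icc.2 ⟨hb1 1, hb'.2.2⟩⟩
      · intro b _ c _ hbc
        simp only [Prod.mk.injEq] at hbc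
        funext i
        fin_cases i
        · exact hbc.1
        · exact hbc.2
    rw [card_product, Nat.card_Icc, Nat.add_sub_cancel] at h1
    calc (B0.card : ℝ) ≤ ((t * t : ℕ) : ℝ) := by exact_mod_cast h1
      _ = (t : ℝ) ^ 2 := by push_cast; ring
      _ = Real.sqrt (((t : ℝ) ^ 2) ^ 2) := by rw [Real.sqrt_sq (by positivity)]
      _ ≤ Real.sqrt Y := by
          apply Real.sqrt_le_sqrt
          have : ((t ^ 4 : ℕ) : ℝ) ≤ (Y : ℝ) := by exact_mod_cast ht1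
          calc ((t : ℝ) ^ 2) ^ 2 = ((t ^ 4 : ℕ) : ℝ) := by push_cast; ring
            _ ≤ _ := this
      _ = _ := Real.sqrt_eq_rpow _
  have hc1 : (B1.card : ℝ) ≤ 2 * (Y : ℝ) ^ (1 / 2 : ℝ) := by
    have h1 : (B1.image (fun b => (b 0, b 1))).card = B1.card := by
      refine card_image_of_injOn ?_
      intro b _ c _ hbc
      simp only [Prod.mk.injEq] at hbc
      funext i
      fin_cases i
      · exact hbc.1
      · exact hbc.2
    rw [← h1]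
    refine pair_tail Y t ht2 _ ?_
    intro x hx
    obtain ⟨b, hb, rfl⟩ := mem_image.1 hx
    have hb' := mem_filter.1 hb
    exact ⟨hb'.2.1, (hB b hb'.1).1 1, hb'.2.2⟩
  have hc2 : (B2.card : ℝ) ≤ 2 * (Y : ℝ) ^ (1 / 2 : ℝ) := by
    have h1 : (B2.image (fun b => (b 1, b 0))).card = B2.card := by
      refine card_image_of_injOn ?_
      intro b _ c _ hbc
      simp only [Prod.mk.injEq] at hbc
      funext i
      fin_cases i
      · exact hbc.2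
      · exact hbc.1
    rw [← h1]
    refine pair_tail Y t ht2 _ ?_
    intro x hx
    obtain ⟨b, hb, rfl⟩ := mem_image.1 hx
    have hb' := mem_filter.1 hb
    exact ⟨hb'.2.1, (hB b hb'.1).1 0, hb'.2.2⟩
  have h1 : B.card ≤ B0.card + (B1.card + B2.card) :=
    (card_le_card hcov).trans ((card_union_le _ _).trans (Nat.add_le_add_left (card_union_le _ _) _))
  have h2 : (B.card : ℝ) ≤ (B0.card : ℝ) + ((B1.card : ℝ) + (B2.card : ℝ)) := by exact_mod_cast h1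
  linarith

end PX
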