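import Pool.Agent.Helper81.PX.Defs

/-!
Project PX (MP_b8862a_ag), block PX-5: the inequality of the means over all intervals.
-/

set_option linter.unusedSectionVars false

open Finset

namespace PX

/-- a square of side `a` contributes at least `a` -/
theorem sq90 (a : ℕ) : (a : ℝ) ≤ ∑ u ∈ range a, ∑ v ∈ range a, 1 / ((u : ℝ) + v + 1) := by
  induction a with
  | zero => simp
  | succ a ih =>
    rw [sum_range_succ]
    have h1 : ∑ u ∈ range a, ∑ v ∈ range (a + 1), 1 / ((u : ℝ) + v + 1) =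
        (∑ u ∈ range a, ∑ v ∈ range a, 1 / ((u : ℝ) + v + 1)) + ∑ u ∈ range a, 1 / ((u : ℝ) + a + 1) := by
      rw [← sum_add_distrib]
      refine sum_congr rfl fun u _ => ?_
      rw [sum_range_succ]
    have h2 : ∑ v ∈ range (a + 1), 1 / ((a : ℝ) + v + 1) = (∑ v ∈ range a, 1 / ((a : ℝ) + v + 1)) + 1 / ((a : ℝ) + a + 1) := by
      rw [sum_range_succ]
    rw [h1, h2]
    rcases Nat.eq_zero_or_pos a with h0 | h0
    · subst h0
      norm_num
    have ha : (0 : ℝ) < a := by exact_mod_cast h0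
    have h3 : ∀ u ∈ range a, 1 / (2 * (a : ℝ)) ≤ 1 / ((u : ℝ) + a + 1) := by
      intro u hu
      have h4 : (u : ℝ) + 1 ≤ a := by
        have := mem_range.1 hu
        exact_mod_cast this
      apply one_div_le_one_div_of_le
      · positivity
      · linarith
    have h5 : (1 : ℝ) / 2 ≤ ∑ u ∈ range a, 1 / ((u : ℝ) + a + 1) := by
      calc (1 : ℝ) / 2 = ∑ _u ∈ range a, 1 / (2 * (a : ℝ)) := by
            rw [sum_const, card_range, nsmul_eq_mul]
            field_simp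
        _ ≤ _ := sum_le_sum h3
    have h6 : (1 : ℝ) / 2 ≤ ∑ v ∈ range a, 1 / ((a : ℝ) + v + 1) := by
      refine h5.trans (le_of_eq ?_)
      refine sum_congr rfl fun v _ => ?_
      congr 1
      ring
    have h7 : (0 : ℝ) < 1 / ((a : ℝ) + a + 1) := by positivity
    push_cast
    linarith

theorem sq90' {a p q : ℕ} (hp : a ≤ p) (hq : a ≤ q) :
    (a : ℝ) ≤ ∑ u ∈ range p, ∑ v ∈ range q, 1 / ((u : ℝ) + v + 1) := by
  refine (sq90 a).trans ?_
  calc ∑ u ∈ range a, ∑ v ∈ range a, 1 / ((u : ℝ) + v + 1)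
      ≤ ∑ u ∈ range a, ∑ v ∈ range q, 1 / ((u : ℝ) + v + 1) := by
        refine sum_le_sum fun u _ => sum_le_sum_of_subset_of_nonneg (range_subset_range.2 hq) fun v _ _ => ?_
        positivity
    _ ≤ _ := by
        refine sum_le_sum_of_subset_of_nonneg (range_subset_range.2 hp) fun u _ _ => ?_
        exact sum_nonneg fun v _ => by positivity

/-- a path contributes the harmonic number -/
theorem harm90 (p q : ℕ) : ∑ s ∈ range (p + q + 1), 1 / ((s : ℝ) + 1) ≤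
    ∑ u ∈ range (p + 1), ∑ v ∈ range (q + 1), 1 / ((u : ℝ) + v + 1) := by
  induction p with
  | zero =>
    rw [sum_range_one]
    simp
  | succ p ih =>
    rw [sum_range_succ _ (p + 1), show p + 1 + q + 1 = (p + q + 1) + 1 by ring, sum_range_succ _ (p + q + 1)]
    refine add_le_add ih ?_
    have h1 : (1 : ℝ) / (((p + 1 : ℕ) : ℝ) + (q : ℕ) + 1) ≤ ∑ v ∈ range (q + 1), 1 / (((p + 1 : ℕ) : ℝ) + v + 1) :=
      single_le_sum (f := fun v : ℕ => 1 / (((p + 1 : ℕ) : ℝ) + v + 1)) (fun v _ => by positivity)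
        (mem_range.2 (Nat.lt_succ_self q))
    refine le_trans (le_of_eq ?_) h1
    push_cast
    congr 1
    ring

/-- the exponent of `β l` -/
theorem expo90 (m l : ℕ) : ∑ i ∈ range (l + 1), ∑ j ∈ Ico (l + 1) m, 1 / ((j : ℝ) - i) =
    ∑ u ∈ range (l + 1), ∑ v ∈ range (m - 1 - l), 1 / ((u : ℝ) + v + 1) := by
  rw [← sum_range_reflect]
  refine sum_congr rfl fun u hu => ?_
  have hu' : u < l + 1 := mem_range.1 hu
  rw [sum_Ico_eq_sum_range, show m - (l + 1) = m - 1 - l by omega]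
  refine sum_congr rfl fun v _ => ?_
  have h1 : ((l + 1 - 1 - u : ℕ) : ℝ) = (l : ℝ) - u := by
    rw [Nat.add_sub_cancel, Nat.cast_sub (by omega)]
  rw [h1]
  push_cast
  congr 1
  ring

theorem gg_le90 {m l : ℕ} (hl : l < m - 1) (hm : (8 : ℝ) ≤ ∑ s ∈ range (m - 1), 1 / ((s : ℝ) + 1)) :
    4 * (gg m l : ℝ) ≤ ∑ i ∈ range (l + 1), ∑ j ∈ Ico (l + 1) m, 1 / ((j : ℝ) - i) := by
  rw [expo90 m l]
  have h1 : (8 : ℝ) ≤ ∑ u ∈ range (l + 1), ∑ v ∈ range (m - 1 - l), 1 / ((u : ℝ) + v + 1) := by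
    have h2 := harm90 l (m - 2 - l)
    rw [show l + (m - 2 - l) + 1 = m - 1 by omega, show m - 2 - l + 1 = m - 1 - l by omega] at h2
    exact hm.trans h2
  have h2 := sq90' (a := min (l + 1) (m - 1 - l)) (min_le_left _ _) (min_le_right _ _)
  unfold gg
  rcases le_total 2 (min (l + 1) (m - 1 - l) / 4) with h3 | h3
  · rw [max_eq_right h3]
    refine le_trans ?_ h2
    have h4 : 4 * (min (l + 1) (m - 1 - l) / 4) ≤ min (l + 1) (m - 1 - l) := Nat.mul_div_le _ _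
    exact_mod_cast h4
  · rw [max_eq_left h3]
    have h4 : (4 : ℝ) * ((2 : ℕ) : ℝ) = 8 := by norm_num
    rw [h4]
    exact h1

/-- the logarithm of a mean -/
theorem log_mean90 {β : ℕ → ℝ} (hβ : ∀ l, 1 ≤ β l) {i j : ℕ} (hij : i < j) :
    ∑ l ∈ Ico i j, 1 / ((j : ℝ) - i) * Real.log (β l) ≤ Real.log ((∑ l ∈ Ico i j, β l) / ((j : ℝ) - i)) := by
  have hd : (0 : ℝ) < (j : ℝ) - i := by
    have : (i : ℝ) < j := by exact_mod_cast hij
    linarith
  have h0 : ∀ l, 0 < β l := fun l => lt_of_lt_of_le one_pos (hβ l)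
  have h1 := Real.geom_mean_le_arith_mean_weighted (Ico i j) (fun _ => 1 / ((j : ℝ) - i)) β
    (fun l _ => by positivity) (by
      rw [sum_const, Nat.card_Ico, nsmul_eq_mul, Nat.cast_sub hij.le]
      field_simp) (fun l _ => (h0 l).le)
  have h2 : ∑ l ∈ Ico i j, 1 / ((j : ℝ) - i) * Real.log (β l) =
      Real.log (∏ l ∈ Ico i j, β l ^ (1 / ((j : ℝ) - i))) := by
    rw [Real.log_prod (fun l _ => (Real.rpow_pos_of_pos (h0 l) _).ne')]
    refine sum_congr rfl fun l _ => ?_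
    rw [Real.log_rpow (h0 l)]
  rw [h2]
  have h3 : (∑ l ∈ Ico i j, β l) / ((j : ℝ) - i) = ∑ l ∈ Ico i j, 1 / ((j : ℝ) - i) * β l := by
    rw [← mul_sum]
    ring
  rw [h3]
  exact Real.log_le_log (prod_pos fun l _ => Real.rpow_pos_of_pos (h0 l) _) h1

/-- exchange of the sums -/
theorem swap90 (m : ℕ) (F : ℕ → ℕ → ℕ → ℝ) : ∑ i ∈ range m, ∑ j ∈ Ico (i + 1) m, ∑ l ∈ Ico i j, F i j l =
    ∑ l ∈ range (m - 1), ∑ i ∈ range (l + 1), ∑ j ∈ Ico (l + 1) m, F i j l := by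
  have h1 : ∀ i, ∑ j ∈ Ico (i + 1) m, ∑ l ∈ Ico i j, F i j l = ∑ l ∈ Ico i (m - 1), ∑ j ∈ Ico (l + 1) m, F i j l := by
    intro i
    refine sum_comm' fun j l => ?_
    simp only [mem_Ico]
    omega
  rw [sum_congr rfl fun i _ => h1 i]
  refine sum_comm' fun i l => ?_
  simp only [mem_Ico, mem_range]
  omega

/-- **PX-5.** The inequality of the means. -/
theorem means : ∃ R : ℕ, ∀ m, R ≤ m → ∀ β : ℕ → ℝ, (∀ l, 1 ≤ β l) →
    (∏ l ∈ Finset.range (m - 1), β l ^ gg m l) ^ 4 ≤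
      ∏ i ∈ Finset.range m, ∏ j ∈ Finset.Ico (i + 1) m, ((∑ l ∈ Finset.Ico i j, β l) / ((j : ℝ) - i)) := by
  obtain ⟨R, hR⟩ := Filter.eventually_atTop.1 (Real.tendsto_sum_range_one_div_nat_succ_atTop.eventually_ge_atTop 8)
  refine ⟨R + 1, fun m hm β hβ => ?_⟩
  have h8 := hR (m - 1) (by omega)
  have h0 : ∀ l, 0 < β l := fun l => lt_of_lt_of_le one_pos (hβ l)
  have hlog : ∀ l, 0 ≤ Real.log (β l) := fun l => Real.log_nonneg (hβ l)
  have hpos : ∀ i ∈ range m, ∀ j ∈ Ico (i + 1) m, (0 : ℝ) < (∑ l ∈ Ico i j, β l) / ((j : ℝ) - i) := by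
    intro i _ j hj
    have hij : i < j := by
      have := mem_Ico.1 hj
      omega
    have hd : (0 : ℝ) < (j : ℝ) - i := by
      have : (i : ℝ) < j := by exact_mod_cast hij
      linarith
    refine div_pos (sum_pos (fun l _ => h0 l) ⟨i, mem_Ico.2 ⟨le_rfl, hij⟩⟩) hd
  rw [← Real.log_le_log_iff (pow_pos (prod_pos fun l _ => pow_pos (h0 l) _) _)
    (prod_pos fun i hi => prod_pos fun j hj => hpos i hi j hj)]
  rw [Real.log_pow, Real.log_prod (fun l _ => (pow_pos (h0 l) _).ne'),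
    Real.log_prod (fun i hi => (prod_pos fun j hj => hpos i hi j hj).ne')]
  have h1 : ∑ i ∈ range m, Real.log (∏ j ∈ Ico (i + 1) m, (∑ l ∈ Ico i j, β l) / ((j : ℝ) - i)) =
      ∑ i ∈ range m, ∑ j ∈ Ico (i + 1) m, Real.log ((∑ l ∈ Ico i j, β l) / ((j : ℝ) - i)) := by
    refine sum_congr rfl fun i hi => ?_
    rw [Real.log_prod (fun j hj => (hpos i hi j hj).ne')]
  have h2 : ∑ i ∈ range m, ∑ j ∈ Ico (i + 1) m, ∑ l ∈ Ico i j, 1 / ((j : ℝ) - i) * Real.log (β l) ≤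
      ∑ i ∈ range m, ∑ j ∈ Ico (i + 1) m, Real.log ((∑ l ∈ Ico i j, β l) / ((j : ℝ) - i)) := by
    refine sum_le_sum fun i _ => sum_le_sum fun j hj => log_mean90 hβ ?_
    have := mem_Ico.1 hj
    omega
  rw [h1]
  refine le_trans ?_ h2
  rw [swap90 m (fun i j l => 1 / ((j : ℝ) - i) * Real.log (β l)), mul_sum]
  refine sum_le_sum fun l hl => ?_
  have h3 := gg_le90 (mem_range.1 hl) h8
  have h4 : ∑ i ∈ range (l + 1), ∑ j ∈ Ico (l + 1) m, 1 / ((j : ℝ) - i) * Real.log (β l) =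
      (∑ i ∈ range (l + 1), ∑ j ∈ Ico (l + 1) m, 1 / ((j : ℝ) - i)) * Real.log (β l) := by
    rw [sum_mul]
    refine sum_congr rfl fun i _ => ?_
    rw [sum_mul]
  rw [h4, Real.log_pow]
  have h5 := mul_le_mul_of_nonneg_right h3 (hlog l)
  push_cast
  linarith

end PX
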